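import Mathlib
import Pool.Agent.BoxMinor.Defs
import Pool.Agent.BoxMinor.LowerFinal

set_option autoImplicit false

namespace Pool.Agent.Results.MP_be9601_co.LowerBound

open Pool.Agent.BoxMinor

/-- There are finite graphs without a `K_t` minor of boxicity at least `c t log t`. -/
theorem result : ∃ c : ℝ, 0 < c ∧ ∀ t : ℕ, 2 ≤ t → ∃ (n : ℕ) (G : SimpleGraph (Fin n)),
    ¬ HasCliqueMinor G t ∧ HasBoxRep G (boxicity G) ∧ c * t * Real.log t ≤ boxicity G :=
  lower_boxicity

end Pool.Agent.Results.MP_be9601_co.LowerBound
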