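import Mathlib
import Pool.Agent.BoxMinor.Defs
import Pool.Agent.BoxMinor.UpperFinal

set_option autoImplicit false

namespace Pool.Agent.Results.MP_be9601_co.UpperBound

open Pool.Agent.BoxMinor

/-- Every finite graph without a `K_t` minor has boxicity at most `C t (log t)^(3/2)`. -/
theorem result : ∃ C : ℝ, ∀ t : ℕ, 2 ≤ t → ∀ (V : Type) [Finite V] (G : SimpleGraph V),
    ¬ HasCliqueMinor G t →
      HasBoxRep G (boxicity G) ∧ (boxicity G : ℝ) ≤ C * t * Real.log t ^ (3 / 2 : ℝ) := by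
  obtain ⟨C, _, hC⟩ := upper_final
  refine ⟨C, fun t ht V _ G hG => ?_⟩
  obtain ⟨k, hk, hle⟩ := hC t ht G hG
  have hlog : 0 ≤ Real.log t := Real.log_nonneg (by exact_mod_cast (by omega : 1 ≤ t))
  have h1 : Real.log t ^ (3 / 2 : ℝ) = Real.log t * Real.sqrt (Real.log t) := by
    rw [show (3 / 2 : ℝ) = 1 + 1 / 2 by norm_num, Real.rpow_add_of_nonneg hlog (by norm_num)
      (by norm_num), Real.rpow_one, Real.sqrt_eq_rpow]
  refine ⟨Nat.sInf_mem (s := {d | HasBoxRep G d}) ⟨k, hk⟩, ?_⟩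
  rw [h1]
  exact le_trans (by exact_mod_cast boxicity_le hk) hle

end Pool.Agent.Results.MP_be9601_co.UpperBound
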